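import Pool.Agent.Helper47.CA.Final

/-!
# Crossed products over co-amenable subgroups need not be relatively embeddable

There are a countable group `G`, a co-amenable subgroup `S` of `G` and a trace preserving action of `G` on a finite
von Neumann algebra `N` such that the inclusion of `N ⋊ S` in `N ⋊ G` is not RE/`N ⋊ S`. Here `N` is the algebra of the
complex numbers, so that the inclusion is the inclusion of the group von Neumann algebras of `S` and `G`.

The proof: there is a residually finite group `Γ` with Kazhdan's property (T) and a subgroup `K` of `Γ` with property (T)
such that `Γ` is generated by the elements `g` with `g⁻¹ K g ≤ K`, and `g K g⁻¹` is not contained in `K` for one of them.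
Let `G` be the wreath product of `Γ` and the integers and let `S` be the subgroup of the elements `x` of the direct
sum with `x n = 1` for `n < 0` and `x 0 ∈ K`. If the inclusion were RE, then (matrix models of the tensor products, and the
theorem on almost commutants of Kazhdan pairs of matrices) the unitary of `g k g⁻¹` would almost commute with
the relative commutant of `B_k` in `A_k`, hence it would be close to `B_k ⊗ N ⋊ S`, which contradicts the commuting square.

Modules by helper18 (STC), helper25 (STA, MIC), helper30 (TRU, BES, POL, COM), helper55 (KAP), helper76 (GRP) and
helper80 (TH, DEN, HYP, UNI, GV); statements, main step and assembly by helper47.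
-/

set_option autoImplicit false

namespace Pool.Agent.Results.MP_56a53b_an.CoamenableNotRE

open Pool.Agent.N557.QWX (Op IsTracial)
open Pool.Agent.Helper47.CA (CoAmenable IsAction crossProd vec CrossedRE)

/-- There are a countable group `G`, a co-amenable subgroup `S` and a trace preserving action `α` of `G` on a tracial
von Neumann algebra `(N, tr ξ)` (on the Hilbert space of the complex numbers) such that the inclusion of the tracial von
Neumann algebras `N ⋊ S` and `N ⋊ G` is not RE/`N ⋊ S`. -/
theorem result : ∃ (G : Type) (_ : Group G) (S : Subgroup G) (N : VonNeumannAlgebra ℂ) (ξ : ℂ)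
    (α : G → Op ℂ → Op ℂ),
    Countable G ∧ CoAmenable S ∧ IsTracial N ξ ∧ IsAction N ξ α ∧
    (∀ H : Subgroup G, IsTracial (crossProd N α H) (vec G ξ)) ∧ ¬ CrossedRE N ξ α S := by
  obtain ⟨G, _, S, N, ξ, α, h1, h2, h3, h4, h5, h6, -⟩ := Pool.Agent.Helper47.CA.final
  exact ⟨G, inferInstance, S, N, ξ, α, h1, h2, h3, h4, h5, h6⟩

end Pool.Agent.Results.MP_56a53b_an.CoamenableNotRE
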